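import Pool.Agent.Helper54.SRD.Basic

/-!
# Existence of time minimising curves (packet SRD-MIN)
-/

open Set Filter MeasureTheory
open scoped Manifold ContDiff Topology

noncomputable section

namespace Helper64SRD

open Pool.Agent.Helper54.SRD

theorem min_curves (E : Type*) [NormedAddCommGroup E] [NormedSpace ℝ E] [FiniteDimensional ℝ E]
    (M : Type*) [TopologicalSpace M] [ChartedSpace E M] [IsManifold 𝓘(ℝ, E) ∞ M]
    (hLIM : S_LIM E M) (hLSC : S_LSC E M) (hRCH : S_RCH E M) (hCON : S_CON E M) :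
    S_MIN E M := by
  intro hc ht hcon G
  obtain ⟨r1, r2, r3, r4, r5⟩ := hRCH G
  have hbdd : ∀ x y : M, BddBelow {L | Reach G x y L} := fun x y => ⟨0, fun L hL => hL.1⟩
  have hne : ∀ x y : M, {L | Reach G x y L}.Nonempty := fun x y => hCON hcon G x y
  have h0 : ∀ x y : M, 0 ≤ tau G x y := fun x y => le_csInf (hne x y) (fun L hL => hL.1)
  have hle : ∀ (x y : M) (L : ℝ), Reach G x y L → tau G x y ≤ L :=
    fun x y L h => csInf_le (hbdd x y) h
  have htri : ∀ x y z : M, tau G x z ≤ tau G x y + tau G y z := by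
    intro x y z
    refine le_of_forall_pos_le_add fun ε hε => ?_
    obtain ⟨L, hL, hL'⟩ := exists_lt_of_csInf_lt (hne x y)
      (lt_add_of_pos_right (sInf {L | Reach G x y L}) (half_pos hε))
    obtain ⟨L2, hL2, hL2'⟩ := exists_lt_of_csInf_lt (hne y z)
      (lt_add_of_pos_right (sInf {L | Reach G y z L}) (half_pos hε))
    have h := hle x z (L + L2) (r3 _ _ _ _ _ hL hL2)
    have e1 : tau G x y = sInf {L | Reach G x y L} := rfl
    have e2 : tau G y z = sInf {L | Reach G y z L} := rfl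
    linarith
  refine ⟨h0, hle, htri, fun x y => ?_⟩
  have hex : ∀ n : ℕ, ∃ L, Reach G x y L ∧ L < tau G x y + 1 / ((n : ℝ) + 1) := by
    intro n
    have hpos : (0 : ℝ) < 1 / ((n : ℝ) + 1) := by positivity
    obtain ⟨L, hL, hL'⟩ := exists_lt_of_csInf_lt (hne x y)
      (lt_add_of_pos_right (sInf {L | Reach G x y L}) hpos)
    exact ⟨L, hL, hL'⟩
  choose L hL hLT using hex
  have hLge : ∀ n, tau G x y ≤ L n := fun n => hle _ _ _ (hL n)
  have htend : Tendsto L atTop (𝓝 (tau G x y)) := by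
    have h1 : Tendsto (fun n : ℕ => tau G x y + 1 / ((n : ℝ) + 1)) atTop
        (𝓝 (tau G x y + 0)) :=
      tendsto_const_nhds.add tendsto_one_div_add_atTop_nhds_zero_nat
    rw [add_zero] at h1
    exact tendsto_of_tendsto_of_tendsto_of_le_of_le tendsto_const_nhds h1 hLge
      (fun n => (hLT n).le)
  choose γ hγ using fun n => (hL n).2
  have hU : ((Filter.hyperfilter ℕ : Ultrafilter ℕ) : Filter ℕ) ≤ atTop := by
    rw [← Nat.cofinite_eq_atTop]
    exact Filter.hyperfilter_le_cofinite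
  obtain ⟨γ', hLU⟩ := hLIM hc ht G (Filter.hyperfilter ℕ) γ 1 zero_le_one
    (fun n t => (hγ n).1 t)
  have hsp : ∀ t, SpeedLE G 1 γ' t :=
    hLSC ht G ((Filter.hyperfilter ℕ : Ultrafilter ℕ) : Filter ℕ) γ γ' (fun _ => 1) 1
      (Filter.hyperfilter ℕ : Ultrafilter ℕ).neBot' hLU
      (fun _ => zero_le_one) tendsto_const_nhds (Eventually.of_forall fun n => (hγ n).1)
  have hx : γ' 0 = x := by
    by_contra hne'
    obtain ⟨U, V, hU', hV, hxU, hxV, hd⟩ := t2_separation hne'
    obtain ⟨r, hr, hev⟩ := hLU 0 U (hU'.mem_nhds hxU)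
    obtain ⟨n, hn⟩ := hev.exists
    have h := hn 0 (by simpa using hr)
    rw [(hγ n).2.1] at h
    exact Set.disjoint_left.1 hd h hxV
  have hy : γ' (tau G x y) = y := by
    by_contra hne'
    obtain ⟨U, V, hU', hV, hxU, hxV, hd⟩ := t2_separation hne'
    obtain ⟨r, hr, hev⟩ := hLU (tau G x y) U (hU'.mem_nhds hxU)
    have h2 : ∀ᶠ n in ((Filter.hyperfilter ℕ : Ultrafilter ℕ) : Filter ℕ),
        |L n - tau G x y| < r := by
      have h3 := Metric.tendsto_nhds.1 (htend.mono_left hU) r hr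
      filter_upwards [h3] with n hn
      rwa [Real.dist_eq] at hn
    obtain ⟨n, hn, hn2⟩ := (hev.and h2).exists
    have h := hn (L n) hn2
    rw [(hγ n).2.2] at h
    exact Set.disjoint_left.1 hd h hxV
  refine ⟨γ', hsp, hx, hy, fun s t hs hst htT => ?_⟩
  have hR : ∀ a b : ℝ, a ≤ b → tau G (γ' a) (γ' b) ≤ b - a := by
    intro a b hab
    have h := hle _ _ _ (r5 1 γ' a b one_pos hab (fun u _ => hsp u))
    linarith
  have e1 := hR s t hst
  have e2 := hR 0 s hs
  have e3 := hR t (tau G x y) htT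
  rw [hx] at e2
  rw [hy] at e3
  have e4 := htri x (γ' s) y
  have e5 := htri (γ' s) (γ' t) y
  linarith

end Helper64SRD
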