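import Pool.Agent.Helper54.SRD.Basic

/-!
# The 2-jet `z + s v - s^2 Γ(v,v) / 2` does not depend on the chart (packet SRD-JET)
-/

open Set Filter MeasureTheory Asymptotics
open scoped Manifold ContDiff Topology

noncomputable section

namespace Helper64SRD

open Pool.Agent.Helper54.SRD

/-- Second order Taylor expansion with a little-o remainder, and symmetry of the second
derivative. -/
theorem taylor2 {E F : Type*} [NormedAddCommGroup E] [NormedSpace ℝ E] [NormedAddCommGroup F]
    [NormedSpace ℝ F] {f : E → F} {z : E} (hf : ContDiffAt ℝ 2 f z) :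
    (fun h => f (z + h) - f z - fderiv ℝ f z h - (1 / 2 : ℝ) • fderiv ℝ (fderiv ℝ f) z h h)
      =o[𝓝 0] fun h => ‖h‖ ^ 2 := by
  have hev : ∀ᶠ w in 𝓝 z, DifferentiableAt ℝ f w := by
    have h1 := hf.eventually (by simp)
    exact h1.mono fun w hw => hw.differentiableAt (by norm_num)
  have hD1 : ContDiffAt ℝ 1 (fderiv ℝ f) z := hf.fderiv_right (by norm_num)
  have hD2 : HasFDerivAt (fderiv ℝ f) (fderiv ℝ (fderiv ℝ f) z) z :=
    (hD1.differentiableAt (by norm_num)).hasFDerivAt
  set D := fderiv ℝ f z with hD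
  set D2 := fderiv ℝ (fderiv ℝ f) z with hD2d
  have hsymm : ∀ u v, D2 u v = D2 v u := fun u v =>
    second_derivative_symmetric_of_eventually (hev.mono fun w hw => hw.hasFDerivAt) hD2 u v
  rw [isLittleO_iff]
  intro c hc
  have h2 := (hasFDerivAt_iff_isLittleO.1 hD2)
  rw [isLittleO_iff] at h2
  have h3 := h2 hc
  obtain ⟨δ, hδ, hball⟩ := Metric.eventually_nhds_iff.1 (h3.and hev)
  filter_upwards [Metric.ball_mem_nhds (0 : E) hδ] with h hh
  have hh' : ‖h‖ < δ := by simpa using hh
  have hder : ∀ k ∈ Metric.closedBall (0 : E) ‖h‖,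
      HasFDerivWithinAt (fun k => f (z + k) - f z - D k - (1 / 2 : ℝ) • D2 k k)
        (fderiv ℝ f (z + k) - D - D2 k) (Metric.closedBall (0 : E) ‖h‖) k := by
    intro k hk
    have hk' : ‖k‖ ≤ ‖h‖ := by simpa using hk
    have hdist : dist (z + k) z < δ := by
      rw [dist_eq_norm]
      simpa using lt_of_le_of_lt hk' hh'
    have hd : DifferentiableAt ℝ f (z + k) := (hball hdist).2
    have e1 : HasFDerivAt (fun k => f (z + k)) (fderiv ℝ f (z + k)) k := by
      have := hd.hasFDerivAt.comp k ((hasFDerivAt_id k).const_add z)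
      rw [ContinuousLinearMap.comp_id] at this
      exact this
    have e2 : HasFDerivAt (fun k => D2 k k) ((D2 k) + D2.flip k) k := by
      have := (D2.hasFDerivAt (x := k)).clm_apply (hasFDerivAt_id k)
      simpa using this
    have e3 := ((e1.sub_const (f z)).sub (D.hasFDerivAt (x := k))).sub (e2.const_smul (1 / 2 : ℝ))
    refine (e3.congr_fderiv ?_).hasFDerivWithinAt
    ext u
    simp only [sub_apply, smul_apply,
      add_apply, ContinuousLinearMap.flip_apply]
    rw [hsymm u k, ← two_smul ℝ (D2 k u), smul_smul]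
    norm_num
  have hbound : ∀ k ∈ Metric.closedBall (0 : E) ‖h‖,
      ‖fderiv ℝ f (z + k) - D - D2 k‖ ≤ c * ‖h‖ := by
    intro k hk
    have hk' : ‖k‖ ≤ ‖h‖ := by simpa using hk
    have hdist : dist (z + k) z < δ := by
      rw [dist_eq_norm]
      simpa using lt_of_le_of_lt hk' hh'
    have h4 := (hball hdist).1
    rw [add_sub_cancel_left] at h4
    exact h4.trans (mul_le_mul_of_nonneg_left hk' hc.le)
  have h5 := (convex_closedBall (0 : E) ‖h‖).norm_image_sub_le_of_norm_hasFDerivWithin_le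
    hder hbound (Metric.mem_closedBall_self (norm_nonneg h)) (by simp : h ∈ Metric.closedBall (0 : E) ‖h‖)
  simp only [add_zero, sub_self, map_zero, smul_zero, sub_zero] at h5
  rw [Real.norm_of_nonneg (by positivity)]
  calc _ ≤ c * ‖h‖ * ‖h‖ := h5
    _ = c * ‖h‖ ^ 2 := by ring

theorem jet (E : Type*) [NormedAddCommGroup E] [NormedSpace ℝ E] [FiniteDimensional ℝ E]
    (M : Type*) [TopologicalSpace M] [ChartedSpace E M] [IsManifold 𝓘(ℝ, E) ∞ M] :
    S_JET E M := by
  intro C x y z v α hz hα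
  have hT := taylor2 ((contDiffAt_tr (E := E) hz).of_le (by norm_cast))
  have htrans := C.trans x y z hz v v
  set D := fderiv ℝ (tr x y) z with hD
  set D2 := fderiv ℝ (fderiv ℝ (tr x y)) z with hD2
  set A := C.Γ x z v v with hA
  set B := C.Γ y (tr x y z) (D v) (D v) with hB
  -- the remainder
  set r : ℝ → E := fun s => α s - (z + s • v - (s ^ 2 / 2) • A) with hr
  set h : ℝ → E := fun s => α s - z with hh
  have hα' : r =o[𝓝 0] fun s : ℝ => s ^ 2 := hα
  have hhr : ∀ s, h s = s • v - (s ^ 2 / 2) • A + r s := by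
    intro s
    simp only [hh, hr]
    abel
  have h_id : (fun s : ℝ => s) =O[𝓝 0] fun s : ℝ => s := isBigO_refl _ _
  have hs2 : (fun s : ℝ => s ^ 2) =O[𝓝 0] fun s : ℝ => s := by
    have : (fun s : ℝ => s ^ 2) =o[𝓝 0] fun s : ℝ => s := by
      simpa using isLittleO_pow_id (𝕜 := ℝ) (n := 2) (by norm_num)
    exact this.isBigO
  -- h - s v = O(s^2)
  have hd : (fun s => h s - s • v) =O[𝓝 0] fun s : ℝ => s ^ 2 := by
    have e1 : (fun s : ℝ => (s ^ 2 / 2) • A) =O[𝓝 0] fun s : ℝ => s ^ 2 := by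
      refine IsBigO.of_bound (‖A‖ / 2) (Eventually.of_forall fun s => ?_)
      rw [norm_smul, norm_div, Real.norm_ofNat]
      exact le_of_eq (by ring)
    have e2 : (fun s => h s - s • v) = fun s => r s - (s ^ 2 / 2) • A := by
      funext s
      rw [hhr s]
      abel
    rw [e2]
    exact hα'.isBigO.sub e1
  have hsv : (fun s : ℝ => s • v) =O[𝓝 0] fun s : ℝ => s := by
    refine IsBigO.of_bound ‖v‖ (Eventually.of_forall fun s => ?_)
    rw [norm_smul]
    exact le_of_eq (by ring)
  have hO : h =O[𝓝 0] fun s : ℝ => s := by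
    have e1 : h = fun s => (h s - s • v) + s • v := by
      funext s
      abel
    rw [e1]
    exact (hd.trans hs2).add hsv
  have h0 : Tendsto h (𝓝 0) (𝓝 0) :=
    hO.trans_tendsto tendsto_id
  -- Taylor along h
  have hT2 : (fun s => tr x y (z + h s) - tr x y z - D (h s) - (1 / 2 : ℝ) • D2 (h s) (h s))
      =o[𝓝 0] fun s : ℝ => s ^ 2 := by
    have e1 := hT.comp_tendsto h0
    refine e1.trans_isBigO ?_
    exact (hO.norm_left).pow 2
  have hDr : (fun s => D (r s)) =o[𝓝 0] fun s : ℝ => s ^ 2 :=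
    (D.isBigO_comp r (𝓝 0)).trans_isLittleO hα'
  -- the quadratic part
  have hquad : (fun s => (1 / 2 : ℝ) • (D2 (h s - s • v) (h s) + D2 (s • v) (h s - s • v)))
      =o[𝓝 0] fun s : ℝ => s ^ 2 := by
    have key : ∀ (a b : ℝ → E), (fun s => ‖a s‖ * ‖b s‖) =o[𝓝 0] (fun s : ℝ => s ^ 2) →
        (fun s => D2 (a s) (b s)) =o[𝓝 0] fun s : ℝ => s ^ 2 := by
      intro a b hab
      refine IsBigO.trans_isLittleO (IsBigO.of_bound ‖D2‖ (Eventually.of_forall fun s => ?_)) hab
      rw [norm_mul, norm_norm, norm_norm, ← mul_assoc]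
      exact D2.le_opNorm₂ (a s) (b s)
    have h3 : (fun s : ℝ => s ^ 2 * s) =o[𝓝 0] fun s : ℝ => s ^ 2 := by
      have e1 : (fun s : ℝ => s) =o[𝓝 0] fun _ : ℝ => (1 : ℝ) := by
        rw [isLittleO_one_iff]
        exact tendsto_id
      have e2 := (isBigO_refl (fun s : ℝ => s ^ 2) (𝓝 0)).mul_isLittleO e1
      simpa using e2
    have k1 := key (fun s => h s - s • v) h
      ((hd.norm_left.mul hO.norm_left).trans_isLittleO h3)
    have k2 := key (fun s => s • v) (fun s => h s - s • v) (by
      refine ((hsv.norm_left.mul hd.norm_left)).trans_isLittleO ?_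
      simpa [mul_comm] using h3)
    exact (k1.add k2).const_smul_left (1 / 2 : ℝ)
  have hsum := (hT2.add hDr).add hquad
  refine hsum.congr_left fun s => ?_
  have ez : z + h s = α s := by
    simp only [hh]
    abel
  have eDh : D (h s) = s • D v - (s ^ 2 / 2) • D A + D (r s) := by
    rw [hhr s, map_add, map_sub, map_smul, map_smul]
  have eDA : D A = B + D2 v v := htrans
  have eq2 : D2 (h s - s • v) (h s) + D2 (s • v) (h s - s • v)
      = D2 (h s) (h s) - (s ^ 2) • D2 v v := by
    simp only [map_sub, map_smul, sub_apply, smul_apply]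
    rw [smul_smul, ← sq]
    abel
  rw [ez, eDh, eDA, eq2]
  module

end Helper64SRD
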